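import Pool.Agent.X126.MA.A
import Pool.Agent.X126.MA.B

/-!
# MP_d44cd8_gt, Q1: both parts decided

(a) is false: the set of countable ordinals with the topology whose proper open sets are the final
segments `(α, ω₁)` (and their unions) is a `T₀` space with a metric analog (the positive cone of
`ℓ¹(ω₁)`), but it is not quasimetrizable.
(b) is true: every quasimetrizable `T₀` based space has a metric analog.

The definitions are in `Pool.Agent.X126.MA.Defs`.
-/

namespace Pool.Agent.Results.MP_d44cd8_gt.BothParts

open X126.MA

universe u

/-- **Q1.** (a) is disproved and (b) is proved. -/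
theorem result :
    (∃ (X : Type) (_ : TopologicalSpace X) (x0 : X), T0Space X ∧ HasMetricAnalog X x0 ∧
      ¬ Quasimetrizable X) ∧
    (∀ (X : Type u) [TopologicalSpace X] [T0Space X] (x0 : X), Quasimetrizable X →
      HasMetricAnalog X x0) :=
  ⟨partA, fun X _ _ x0 h => partB X x0 h⟩

end Pool.Agent.Results.MP_d44cd8_gt.BothParts
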